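import Pool.Agent.MP_dbd6a6_co.H70.Spec

/-!
The Sturm induction: the local sign property together with the finite check gives
real-rootedness.
-/

open Finset Polynomial

noncomputable section

namespace Pool.Agent.MP_dbd6a6_co.H27

open H92 H70

/-- The polynomial `B n` with `cc y n = y * B n (y)`. -/
def B (n : ℕ) : ℝ[X] := ∑ w ∈ W (Icc 1 (n - 1)), (-X) ^ des (stackSort w)

lemma aeval_A_eq {R : Type*} [CommRing R] [Algebra ℝ R] (z : R) (n : ℕ) :
    aeval z (A n) = z * aeval (-z) (B n) := by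
  simp [A_eq, B, mul_sum, pow_succ']

lemma cc_eq (y : ℝ) (n : ℕ) : cc y n = y * (B n).eval y := by
  rw [cc, aeval_A_eq, neg_neg, coe_aeval_eq_eval]
  ring

lemma natDegree_B (n : ℕ) : (B n).natDegree ≤ n / 2 - 1 := by
  refine natDegree_sum_le_of_forall_le _ _ fun w hw => ?_
  obtain ⟨h1, h2⟩ := mem_W.1 hw
  have := des_le _ w rfl h1
  rw [← List.toFinset_card_of_nodup h1, show w.toFinset = Icc 1 (n - 1) by ext a; simp [h2],
    Nat.card_Icc] at this
  rw [natDegree_pow, natDegree_neg, natDegree_X]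
  omega

lemma coeff_B_pos {n j : ℕ} {w : List ℕ} (hw : w ∈ W (Icc 1 (n - 1)))
    (hj : des (stackSort w) = j) : 0 < (-1) ^ j * (B n).coeff j := by
  have e : ∀ k : ℕ, (-1) ^ j * ((-X : ℝ[X]) ^ k).coeff j = if k = j then 1 else 0 := by
    intro k
    have : (-X : ℝ[X]) ^ k = C ((-1) ^ k) * X ^ k := by
      rw [neg_pow]; simp
    rw [this, coeff_C_mul, coeff_X_pow]
    by_cases h : k = j
    · subst h
      simp [← mul_pow]
    · simp [h, Ne.symm h]
  rw [B, finsetSum_coeff, mul_sum]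
  simp only [e]
  exact sum_pos' (fun _ _ => by split_ifs <;> norm_num) ⟨w, hw, by simp [hj]⟩

lemma des_id : ∀ m : ℕ, des (stackSort (List.range' 1 m)) = 0
  | 0 => rfl
  | m + 1 => by
    have h : ∀ a ∈ List.range' 1 m, a < 1 + m := fun a ha => (List.mem_range'_1.1 ha).2
    rw [List.range'_1_concat, stackSort_append h (by simp)]
    have : stackSort [] = [] := rfl
    rw [this, List.append_nil, des_snoc fun a ha => h a ((stackSort_perm _).mem_iff.1 ha), des_id m]

lemma B_zero_pos (n : ℕ) : 0 < (B n).eval 0 := by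
  have hw : List.range' 1 (n - 1) ∈ W (Icc 1 (n - 1)) :=
    mem_W.2 ⟨List.nodup_range', fun a => by rw [List.mem_range'_1, mem_Icc]; omega⟩
  simpa [coeff_zero_eq_eval_zero] using coeff_B_pos hw (des_id _)

/-- A word whose image has the largest possible number of descents. -/
def wd : ℕ → List ℕ
  | 0 => [1]
  | j + 1 => (2 * j + 2) :: (2 * j + 3) :: wd j

lemma mem_wd : ∀ (j a : ℕ), a ∈ wd j ↔ 1 ≤ a ∧ a ≤ 2 * j + 1
  | 0, a => by simp [wd]; omega
  | j + 1, a => by
    rw [wd, List.mem_cons, List.mem_cons, mem_wd j]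
    omega

lemma nodup_wd : ∀ j : ℕ, (wd j).Nodup
  | 0 => by simp [wd]
  | j + 1 => by
    rw [wd, List.nodup_cons, List.nodup_cons, List.mem_cons, mem_wd, mem_wd]
    exact ⟨by omega, by omega, nodup_wd j⟩

lemma des_wd : ∀ j : ℕ, des (stackSort (wd j)) = j
  | 0 => rfl
  | j + 1 => by
    have h : ∀ a ∈ stackSort (wd j), a < 2 * j + 2 := fun a ha => by
      have := (mem_wd j a).1 ((stackSort_perm _).mem_iff.1 ha)
      omega
    have e : wd (j + 1) = [2 * j + 2] ++ (2 * j + 3) :: wd j := rfl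
    have e1 : stackSort [2 * j + 2] = [2 * j + 2] := rfl
    rw [e, stackSort_append (by simp) fun a ha => by have := (mem_wd j a).1 ha; omega, e1,
      des_snoc]
    · have ih := des_wd j
      cases e' : stackSort (wd j) with
      | nil =>
        have := (stackSort_perm (wd j)).mem_iff.2 ((mem_wd j 1).2 (by omega))
        simp [e'] at this
      | cons b l =>
        rw [e'] at ih h
        rw [List.singleton_append, des, if_pos (h b (by simp)), ih, add_comm]
    · intro a ha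
      rcases List.mem_append.1 ha with ha | ha
      · simp at ha; omega
      · have := h a ha; omega

lemma top_B (j : ℕ) : 0 < (-1) ^ j * (B (2 * j + 2)).coeff j :=
  coeff_B_pos (mem_W.2 ⟨nodup_wd j, fun a => by rw [mem_wd, mem_Icc]; omega⟩) (des_wd j)

/-- Far to the right the sign is that of the leading coefficient. -/
lemma far {p : ℝ[X]} {d : ℕ} (hd : 0 < d) (h1 : p.natDegree ≤ d) {c : ℝ} (h2 : 0 < c * p.coeff d)
    (a : ℝ) : ∃ T, 0 ≤ T ∧ 0 < c * p.eval (a + T) := by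
  have hq : (C c * p).coeff d = c * p.coeff d := coeff_C_mul _
  have hn : (C c * p).natDegree = d :=
    natDegree_eq_of_le_of_coeff_ne_zero ((natDegree_C_mul_le _ _).trans h1) (hq ▸ h2.ne')
  have ht := tendsto_atTop_of_leadingCoeff_nonneg (C c * p)
    (natDegree_pos_iff_degree_pos.1 (hn ▸ hd)) (by rw [leadingCoeff, hn, hq]; exact h2.le)
  obtain ⟨x, hx1, hx2⟩ := ((ht.eventually_gt_atTop 0).and (Filter.eventually_ge_atTop a)).exists
  exact ⟨x - a, by linarith, by simpa using hx1⟩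

/-- A polynomial with as many positive roots as its degree allows. -/
lemma fac {p : ℝ[X]} {d : ℕ} (h1 : p.natDegree ≤ d) (h0 : 0 < p.eval 0) {ρ : ℕ → ℝ}
    (hρ : StrictMono ρ) (hp : 0 < ρ 0) (hr : ∀ i < d, p.eval (ρ i) = 0) :
    ∃ c, 0 < c ∧ p = C c * ∏ i ∈ range d, (C (ρ i) - X) := by
  have hpos : ∀ i, 0 < ρ i := fun i => hp.trans_le (hρ.monotone (Nat.zero_le i))
  have hP : 0 < ∏ i ∈ range d, ρ i := prod_pos fun i _ => hpos i
  refine ⟨p.eval 0 / ∏ i ∈ range d, ρ i, div_pos h0 hP, ?_⟩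
  rw [← sub_eq_zero]
  refine eq_zero_of_natDegree_lt_card_of_eval_eq_zero' _ (insert 0 ((range d).image ρ)) ?_ ?_
  · intro x hx
    rcases mem_insert.1 hx with rfl | hx
    · simp [eval_prod, hP.ne']
    · obtain ⟨i, hi, rfl⟩ := mem_image.1 hx
      have e : ∏ j ∈ range d, eval (ρ i) (C (ρ j) - X) = 0 := prod_eq_zero hi (by simp)
      rw [eval_sub, hr i (mem_range.1 hi), eval_mul, eval_prod, e]
      simp
  · rw [card_insert_of_notMem, card_image_of_injective _ hρ.injective, card_range]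
    · refine Nat.lt_succ_of_le ((natDegree_sub_le _ _).trans (max_le h1 ?_))
      refine (natDegree_C_mul_le _ _).trans ((natDegree_prod_le _ _).trans ?_)
      refine (sum_le_sum (g := fun _ => 1) fun i _ => ?_).trans (by simp)
      exact (natDegree_sub_le _ _).trans (by simp)
    · intro h
      obtain ⟨i, -, hi⟩ := mem_image.1 h
      exact (hpos i).ne' hi

lemma sign {p : ℝ[X]} {d : ℕ} (h1 : p.natDegree ≤ d) (h0 : 0 < p.eval 0) {ρ : ℕ → ℝ}
    (hρ : StrictMono ρ) (hp : 0 < ρ 0) (hr : ∀ i < d, p.eval (ρ i) = 0) {k : ℕ} (hk : k ≤ d)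
    {y : ℝ} (hl : ∀ i < k, ρ i < y) (hu : ∀ i, k ≤ i → i < d → y < ρ i) :
    0 < (-1) ^ k * p.eval y := by
  obtain ⟨c, hc, e⟩ := fac h1 h0 hρ hp hr
  have e1 : (-1) ^ k * ∏ i ∈ range k, (ρ i - y) = ∏ i ∈ range k, (y - ρ i) := by
    have : ∏ i ∈ range k, (y - ρ i) = ∏ i ∈ range k, (-1) * (ρ i - y) :=
      prod_congr rfl fun i _ => by ring
    rw [this, prod_mul_distrib, prod_const, card_range]
  have e2 : p.eval y = c * ∏ i ∈ range d, (ρ i - y) := by
    conv_lhs => rw [e]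
    simp [eval_prod]
  rw [e2, ← prod_range_mul_prod_Ico _ hk, mul_left_comm, ← mul_assoc ((-1) ^ k), e1]
  exact mul_pos hc (mul_pos (prod_pos fun i hi => sub_pos.2 (hl i (mem_range.1 hi)))
    (prod_pos fun i hi => sub_pos.2 (hu i (mem_Ico.1 hi).1 (mem_Ico.1 hi).2)))

lemma ivt (p : ℝ[X]) (d : ℕ) {a b : ℕ → ℝ} (hab : ∀ i, a i < b i) {s : ℕ → ℝ}
    (ha : ∀ i < d, 0 < s i * p.eval (a i)) (hb : ∀ i < d, 0 < -s i * p.eval (b i)) :
    ∃ ρ : ℕ → ℝ, ∀ i, a i < ρ i ∧ ρ i < b i ∧ (i < d → p.eval (ρ i) = 0) := by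
  have : ∀ i, ∃ r, a i < r ∧ r < b i ∧ (i < d → p.eval r = 0) := by
    intro i
    by_cases hi : i < d
    · have hc : ContinuousOn (fun x => s i * p.eval x) (Set.Icc (a i) (b i)) :=
        (continuous_const.mul p.continuous).continuousOn
      have h1 := ha i hi
      have h2 := hb i hi
      obtain ⟨r, hr, e⟩ := intermediate_value_Ioo' (hab i).le hc
        (show (0 : ℝ) ∈ Set.Ioo _ _ from ⟨by linarith, h1⟩)
      refine ⟨r, hr.1, hr.2, fun _ => (mul_eq_zero.1 e).resolve_left ?_⟩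
      rintro h
      simp [h] at h1
    · obtain ⟨r, h1, h2⟩ := exists_between (hab i)
      exact ⟨r, h1, h2, fun h => (hi h).elim⟩
  choose ρ h using this
  exact ⟨ρ, h⟩

/-- `B n` has as many positive roots as its degree allows. -/
def Full (n : ℕ) (ρ : ℕ → ℝ) : Prop :=
  StrictMono ρ ∧ 0 < ρ 0 ∧ ∀ i < n / 2 - 1, (B n).eval (ρ i) = 0

lemma real_of_full {n : ℕ} {ρ : ℕ → ℝ} (h : Full n ρ) {z : ℂ} (hz : aeval z (A n) = 0) :
    z.im = 0 := by
  obtain ⟨c, hc, e⟩ := fac (natDegree_B n) (B_zero_pos n) h.1 h.2.1 h.2.2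
  rw [aeval_A_eq, e] at hz
  simp only [map_mul, map_prod, map_sub, aeval_C, aeval_X, mul_eq_zero, prod_eq_zero_iff] at hz
  rcases hz with rfl | hz | ⟨i, -, hz⟩
  · rfl
  · exact absurd (by simpa using hz) hc.ne'
  · simpa using congrArg Complex.im hz

lemma strip_pos {s y t : ℝ} (hy : 0 < y) (h : 0 < s * (y * t)) : 0 < s * t := by
  rw [mul_left_comm] at h
  exact (mul_pos_iff_of_pos_left hy).1 h

/-- The invariant of the induction. -/
def Inv (n : ℕ) : Prop :=
  ∃ ρ, Full n ρ ∧ ∀ i < n / 2 - 1, 0 < (-1) ^ i * (B (n - 1)).eval (ρ i)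

lemma small (H : FinStmt) {n : ℕ} (h2 : 2 ≤ n) (h : n ≤ 200) : ∃ ρ, Full n ρ := by
  obtain ⟨u, hu, h0, hs⟩ := H.1 n h2 h
  have hpos : ∀ i, 0 < u i := fun i => h0.trans_le (hu.monotone (Nat.zero_le i))
  simp only [cc_eq] at hs
  obtain ⟨ρ, hρ⟩ := ivt (B n) (n / 2 - 1) (a := u) (b := fun i => u (i + 1))
    (fun i => hu (Nat.lt_succ_self i)) (s := fun i => (-1) ^ i)
    (fun i hi => strip_pos (hpos _) (hs i (by omega)))
    (fun i hi => by simpa [pow_succ] using strip_pos (hpos _) (hs (i + 1) (by omega)))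
  exact ⟨ρ, strictMono_nat_of_lt_succ fun i => (hρ i).2.1.trans (hρ (i + 1)).1,
    h0.trans (hρ 0).1, fun i hi => (hρ i).2.2 hi⟩

lemma base (H : FinStmt) : Inv 200 := by
  obtain ⟨u, hu, h0, hs⟩ := H.2
  have hpos : ∀ i, 0 < u i := fun i => h0.trans_le (hu.monotone (Nat.zero_le i))
  simp only [cc_eq] at hs
  obtain ⟨ρ, hρ⟩ := ivt (B 200) 99 (a := fun i => u (2 * i)) (b := fun i => u (2 * i + 1))
    (fun i => hu (Nat.lt_succ_self _)) (s := fun i => (-1) ^ i)
    (fun i hi => by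
      have := strip_pos (hpos _) (hs (2 * i) (by omega)).1
      rwa [show (2 * i + 1) / 2 = i by omega] at this)
    (fun i hi => by
      have := strip_pos (hpos _) (hs (2 * i + 1) (by omega)).1
      rw [show (2 * i + 1 + 1) / 2 = i + 1 by omega] at this
      simpa [pow_succ] using this)
  obtain ⟨σ, hσ⟩ := ivt (B 199) 98 (a := fun i => u (2 * i + 1)) (b := fun i => u (2 * i + 2))
    (fun i => hu (Nat.lt_succ_self _)) (s := fun i => (-1) ^ i)
    (fun i hi => by
      have := strip_pos (hpos _) (hs (2 * i + 1) (by omega)).2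
      rwa [show (2 * i + 1) / 2 = i by omega] at this)
    (fun i hi => by
      have := strip_pos (hpos _) (hs (2 * i + 2) (by omega)).2
      rw [show (2 * i + 2) / 2 = i + 1 by omega] at this
      simpa [pow_succ] using this)
  refine ⟨ρ, ⟨strictMono_nat_of_lt_succ fun i =>
    (hρ i).2.1.trans ((hu (by omega)).trans (hρ (i + 1)).1), ?_, fun i hi => (hρ i).2.2 hi⟩,
    fun i hi => ?_⟩
  · exact (hpos _).trans (hρ 0).1
  · refine sign (d := 98) (natDegree_B 199) (B_zero_pos _) (ρ := σ)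
      (strictMono_nat_of_lt_succ fun i => (hσ i).2.1.trans ((hu (by omega)).trans (hσ (i + 1)).1))
      ((hpos _).trans (hσ 0).1) (fun i hi => (hσ i).2.2 hi) (by omega) (fun j hj => ?_)
      fun j hj _ => ?_
    · exact (hσ j).2.1.trans_le ((hu.monotone (by omega)).trans (hρ i).1.le)
    · exact (hρ i).2.1.trans_le ((hu.monotone (by omega)).trans (hσ j).1.le)

lemma step {n : ℕ} (hn : 2 ≤ n) (hL : ∀ y : ℝ, 0 < y → Loc y n) (h : Inv n) : Inv (n + 1) := by
  obtain ⟨ρ, ⟨hρ, h0, hr⟩, hs⟩ := h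
  have hpos : ∀ i, 0 < ρ i := fun i => h0.trans_le (hρ.monotone (Nat.zero_le i))
  set d := n / 2 - 1 with hd
  have h1 : ∀ i < d, 0 < (-1) ^ (i + 1) * (B (n + 1)).eval (ρ i) := by
    intro i hi
    have hl := hL _ (hpos i) (by rw [cc_eq, hr i hi, mul_zero])
    rw [cc_eq, cc_eq, mul_mul_mul_comm] at hl
    have hl' := neg_of_mul_neg_right hl (mul_pos (hpos i) (hpos i)).le
    have h2 := hs i hi
    rw [pow_succ]
    rcases neg_one_pow_eq_or ℝ i with e | e <;> rw [e] at h2 ⊢ <;> nlinarith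
  obtain ⟨T, hT, hT'⟩ : ∃ T, 0 ≤ T ∧
      (d < (n + 1) / 2 - 1 → 0 < (-1) ^ (d + 1) * (B (n + 1)).eval (ρ d + T)) := by
    by_cases hc : d < (n + 1) / 2 - 1
    · have e : n + 1 = 2 * (d + 1) + 2 := by omega
      have ht := top_B (d + 1)
      rw [← e] at ht
      obtain ⟨T, hT, hT'⟩ := far (Nat.succ_pos d) ((natDegree_B (n + 1)).trans (by omega)) ht (ρ d)
      exact ⟨T, hT, fun _ => hT'⟩
    · exact ⟨0, le_rfl, fun h => (hc h).elim⟩
  let b : ℕ → ℝ := fun i => if i < d then ρ i else ρ i + T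
  let a : ℕ → ℝ := fun i => if i = 0 then 0 else b (i - 1)
  have hb : StrictMono b := by
    intro i j hij
    have := hρ hij
    simp only [b]
    split_ifs <;> linarith
  have hb0 : 0 < b 0 := by
    simp only [b]
    split_ifs <;> linarith
  have hbd : ∀ i < d, b i = ρ i := fun i hi => if_pos hi
  have hbs : ∀ i < (n + 1) / 2 - 1, 0 < (-1) ^ (i + 1) * (B (n + 1)).eval (b i) := by
    intro i hi
    by_cases hc : i < d
    · rw [hbd i hc]
      exact h1 i hc
    · obtain rfl : i = d := by omega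
      simpa [b] using hT' hi
  have hab : ∀ i, a i < b i := by
    rintro (_ | i)
    · exact hb0
    · exact hb (Nat.lt_succ_self i)
  obtain ⟨σ, hσ⟩ := ivt (B (n + 1)) ((n + 1) / 2 - 1) hab (s := fun i => (-1) ^ i)
    (by
      rintro (_ | i) hi
      · simpa [a] using B_zero_pos (n + 1)
      · exact hbs i (by omega))
    (fun i hi => by simpa [pow_succ] using hbs i hi)
  refine ⟨σ, ⟨strictMono_nat_of_lt_succ fun i => (hσ i).2.1.trans (hσ (i + 1)).1, (hσ 0).1,
    fun i hi => (hσ i).2.2 hi⟩, fun i hi => ?_⟩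
  refine sign (d := d) (natDegree_B n) (B_zero_pos _) hρ h0 hr (by omega) (fun j hj => ?_)
    fun j hj hj' => ?_
  · obtain ⟨i, rfl⟩ : ∃ k, i = k + 1 := ⟨i - 1, by omega⟩
    rw [← hbd j (by omega)]
    exact (hb.monotone (by omega : j ≤ i)).trans_lt (hσ (i + 1)).1
  · rw [← hbd j hj']
    exact (hσ i).2.1.trans_le (hb.monotone hj)

theorem sturm : SturmStmt := by
  intro H hL n hn z hz
  rcases le_or_gt 200 n with h | h
  · have : Inv n := by
      clear hz hn
      induction n, h using Nat.le_induction with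
      | base => exact base H
      | succ n hn ih => exact step (by omega) (hL n hn) ih
    obtain ⟨ρ, hρ, -⟩ := this
    exact real_of_full hρ hz
  · rcases eq_or_lt_of_le hn with rfl | h2
    · refine real_of_full (ρ := fun i => (i : ℝ) + 1) ⟨fun i j hij => ?_, by simp, by simp⟩ hz
      simpa using hij
    · obtain ⟨ρ, hρ⟩ := small H h2 h.le
      exact real_of_full hρ hz

end Pool.Agent.MP_dbd6a6_co.H27
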